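import Pool.Agent.Helper15.T4.Stmts

/-! Module BAN of the project T4: Banach's theorem on symmetric trilinear forms. -/

set_option autoImplicit false

namespace Pool.Agent.Helper53.T4

open Pool.Agent.Helper15.T4

section

variable {V : Type} [NormedAddCommGroup V] [InnerProductSpace ℝ V]

theorem ban_lin (f : V →ₗ[ℝ] ℝ) {S : ℝ} (hS : 0 < S) (hf : ∀ y, |f y| ≤ S * ‖y‖) {b : V}
    (hb : ‖b‖ = 1) (hfb : f b = S) (y : V) : f y = S * inner ℝ b y := by
  have h : ∀ t : ℝ, 0 ≤ 2 * t * (S * (S * inner ℝ b y - f y)) +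
      t ^ 2 * (S ^ 2 * ‖y‖ ^ 2 - f y ^ 2) := by
    intro t
    have h1 := hf (b + t • y)
    have h2 : f (b + t • y) = S + t * f y := by
      rw [map_add, map_smul, hfb, smul_eq_mul]
    rw [h2] at h1
    have h3 : ‖b + t • y‖ ^ 2 = 1 + 2 * t * inner ℝ b y + t ^ 2 * ‖y‖ ^ 2 := by
      rw [norm_add_sq_real, hb, inner_smul_right, norm_smul, mul_pow, Real.norm_eq_abs, sq_abs]
      ring
    have h4 : (S + t * f y) ^ 2 ≤ (S * ‖b + t • y‖) ^ 2 := by
      rw [← sq_abs (S + t * f y)]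
      exact pow_le_pow_left₀ (abs_nonneg _) h1 2
    rw [mul_pow, h3] at h4
    nlinarith
  have hB : 0 ≤ S ^ 2 * ‖y‖ ^ 2 - f y ^ 2 := by
    have h1 : |f y| ^ 2 ≤ (S * ‖y‖) ^ 2 := pow_le_pow_left₀ (abs_nonneg _) (hf y) 2
    rw [sq_abs, mul_pow] at h1
    linarith
  generalize hA' : S * (S * inner ℝ b y - f y) = A at h
  generalize S ^ 2 * ‖y‖ ^ 2 - f y ^ 2 = B at h hB
  have hA : A = 0 := by
    by_contra hA
    have hpos : 0 < A ^ 2 := by positivity
    have h1 := h (-A / (B + 1))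
    have hB1 : 0 < B + 1 := by linarith
    have h2 : 2 * (-A / (B + 1)) * A + (-A / (B + 1)) ^ 2 * B
        = -(A ^ 2 * (B + 2)) / (B + 1) ^ 2 := by
      field_simp
      ring
    rw [h2] at h1
    have h3 : -(A ^ 2 * (B + 2)) / (B + 1) ^ 2 < 0 := by
      apply div_neg_of_neg_of_pos
      · nlinarith
      · positivity
    linarith
  rw [hA] at hA'
  have := (mul_eq_zero.1 hA').resolve_left hS.ne'
  linarith

/-- cube roots of a complex number of absolute value one, in real coordinates -/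
theorem ban_cube {P Q : ℝ} (h : P ^ 2 + Q ^ 2 = 1) : ∃ x y x' y' : ℝ, x ^ 2 + y ^ 2 = 1 ∧
    x' ^ 2 + y' ^ 2 = 1 ∧ x ^ 3 - 3 * x * y ^ 2 = P ∧ 3 * x ^ 2 * y - y ^ 3 = Q ∧
    x' ^ 3 - 3 * x' * y' ^ 2 = P ∧ 3 * x' ^ 2 * y' - y' ^ 3 = Q ∧ x * y' - y * x' ≠ 0 := by
  obtain ⟨z, hz⟩ := IsAlgClosed.exists_pow_nat_eq (Complex.mk P Q) (n := 3) (by norm_num)
  have s3 : Real.sqrt 3 * Real.sqrt 3 = 3 := Real.mul_self_sqrt (by norm_num)
  have s3p : 0 < Real.sqrt 3 := Real.sqrt_pos.2 (by norm_num)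
  obtain ⟨x, y⟩ := z
  have hre : x ^ 3 - 3 * x * y ^ 2 = P := by
    have := congrArg Complex.re hz
    rw [pow_three] at this
    simp only [Complex.mul_re, Complex.mul_im] at this
    linarith
  have him : 3 * x ^ 2 * y - y ^ 3 = Q := by
    have := congrArg Complex.im hz
    rw [pow_three] at this
    simp only [Complex.mul_re, Complex.mul_im] at this
    linarith
  have hn3 : (x ^ 2 + y ^ 2) ^ 3 = 1 := by
    have : (x ^ 2 + y ^ 2) ^ 3 = (x ^ 3 - 3 * x * y ^ 2) ^ 2 + (3 * x ^ 2 * y - y ^ 3) ^ 2 := by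
      ring
    rw [this, hre, him, h]
  have hn1 : x ^ 2 + y ^ 2 = 1 := by
    have h0 : 0 ≤ x ^ 2 + y ^ 2 := by positivity
    exact (pow_eq_one_iff_of_nonneg h0 (by norm_num)).1 hn3
  generalize Real.sqrt 3 = q at s3 s3p
  refine ⟨x, y, -x / 2 - q / 2 * y, q / 2 * x - y / 2, hn1, ?_, hre, him, ?_, ?_, ?_⟩
  · linear_combination ((x ^ 2 + y ^ 2) / 4) * s3 + hn1
  · rw [← hre]
    linear_combination ((x + q * y) * (3 * x ^ 2 - y ^ 2) / 8 - x * y ^ 2) * s3
  · rw [← him]
    linear_combination ((q * x - y) * (3 * y ^ 2 - x ^ 2) / 8 + x ^ 2 * y) * s3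
  · have : x * (q / 2 * x - y / 2) - y * (-x / 2 - q / 2 * y) = q / 2 * (x ^ 2 + y ^ 2) := by ring
    rw [this, hn1]
    positivity

/-- two non parallel maximisers on the diagonal -/
theorem ban_two (T : V →ₗ[ℝ] V →ₗ[ℝ] V →ₗ[ℝ] ℝ) {S : ℝ} (hS : 0 < S)
    (s1 : ∀ x y z, T x y z = T y x z) (s2 : ∀ x y z, T x y z = T x z y)
    (hT : ∀ x y z, |T x y z| ≤ S * ‖x‖ * ‖y‖ * ‖z‖) {c e : V} (hc : ‖c‖ = 1) (he : ‖e‖ = 1)
    (h : T c e e = S) (h1 : c ≠ e) (h2 : c ≠ -e) :
    ∃ v w : V, ‖v‖ = 1 ∧ ‖w‖ = 1 ∧ T v v v = S ∧ T w w w = S ∧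
      ∀ u : V, ¬ ((∃ s : ℝ, v = s • u) ∧ ∃ s : ℝ, w = s • u) := by
  have L : ∀ x y z, ‖x‖ = 1 → ‖y‖ = 1 → ‖z‖ = 1 → T x y z = S → ∀ t, T x y t = S * inner ℝ z t := by
    intro x y z hx hy hz hxyz t
    refine ban_lin (T x y) hS ?_ hz hxyz t
    intro t
    have := hT x y t
    rw [hx, hy, mul_one, mul_one] at this
    exact this
  have tee : ∀ t, T e e t = S * inner ℝ c t := L e e c he he hc (by rw [s2, s1, h])
  have tec : ∀ t, T e c t = S * inner ℝ e t := L e c e he hc he (by rw [s1, h])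
  set m := ‖e + c‖ with hm
  set n := ‖e - c‖ with hn
  have hm0 : 0 < m := by
    rw [hm, norm_pos_iff]
    intro h0
    apply h2
    rw [eq_neg_iff_add_eq_zero, add_comm]
    exact h0
  have hn0 : 0 < n := by
    rw [hn, norm_pos_iff]
    intro h0
    exact h1 (sub_eq_zero.1 h0).symm
  have hmn : m ^ 2 + n ^ 2 = 4 := by
    rw [hm, hn, norm_add_sq_real, norm_sub_sq_real, he, hc]
    ring
  have ho : inner ℝ (e + c) (e - c) = 0 := by
    rw [inner_add_left, inner_sub_right, inner_sub_right, real_inner_self_eq_norm_sq,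
      real_inner_self_eq_norm_sq, real_inner_comm e c, he, hc]
    ring
  set e' := m⁻¹ • (e + c) with he'
  set f' := n⁻¹ • (e - c) with hf'
  have ne' : ‖e'‖ = 1 := by
    rw [he', norm_smul, norm_inv, Real.norm_eq_abs, abs_of_pos hm0, ← hm, inv_mul_cancel₀ hm0.ne']
  have nf' : ‖f'‖ = 1 := by
    rw [hf', norm_smul, norm_inv, Real.norm_eq_abs, abs_of_pos hn0, ← hn, inv_mul_cancel₀ hn0.ne']
  have oef : inner ℝ e' f' = 0 := by
    rw [he', hf', inner_smul_left, inner_smul_right, ho]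
    simp
  have ee : inner ℝ e' e' = (1 : ℝ) := by rw [real_inner_self_eq_norm_sq, ne', one_pow]
  have ff : inner ℝ f' f' = (1 : ℝ) := by rw [real_inner_self_eq_norm_sq, nf', one_pow]
  have ofe : inner ℝ f' e' = 0 := by rw [real_inner_comm, oef]
  have edec : e = (m / 2) • e' + (n / 2) • f' := by
    rw [he', hf', smul_smul, smul_smul]
    have a1 : m / 2 * m⁻¹ = 1 / 2 := by field_simp
    have a2 : n / 2 * n⁻¹ = 1 / 2 := by field_simp
    rw [a1, a2, ← smul_add]
    have : e + c + (e - c) = (2 : ℝ) • e := by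
      rw [two_smul]
      abel
    rw [this, smul_smul]
    norm_num
  clear_value e' f'
  -- values
  have te1 : ∀ t, T e e' t = S * inner ℝ e' t := by
    intro t
    rw [he', map_smul, LinearMap.smul_apply, map_add, LinearMap.add_apply, tee, tec,
      inner_smul_left, inner_add_left, smul_eq_mul]
    simp
    ring
  have te2 : ∀ t, T e f' t = -(S * inner ℝ f' t) := by
    intro t
    rw [hf', map_smul, LinearMap.smul_apply, map_sub, LinearMap.sub_apply, tee, tec,
      inner_smul_left, inner_sub_left, smul_eq_mul]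
    simp
    ring
  have t11 : ∀ t, T e' e' t = S * inner ℝ e t := by
    refine L e' e' e ne' ne' he ?_
    rw [s2, s1, te1, ee, mul_one]
  have ie : inner ℝ e e' = m / 2 := by
    conv_lhs => rw [edec]
    rw [inner_add_left, inner_smul_left, inner_smul_left, ee, ofe]
    simp
  have if' : inner ℝ e f' = n / 2 := by
    conv_lhs => rw [edec]
    rw [inner_add_left, inner_smul_left, inner_smul_left, ff, oef]
    simp
  have v111 : T e' e' e' = S * (m / 2) := by rw [t11, ie]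
  have v112 : T e' e' f' = S * (n / 2) := by rw [t11, if']
  have v122 : T e' f' f' = -(S * (m / 2)) := by
    have a1 := te1 f'
    rw [oef, mul_zero] at a1
    conv_lhs at a1 => rw [edec]
    rw [map_add, map_smul, map_smul, LinearMap.add_apply, LinearMap.add_apply,
      LinearMap.smul_apply, LinearMap.smul_apply, LinearMap.smul_apply, LinearMap.smul_apply,
      smul_eq_mul, smul_eq_mul, v112, s1 f' e' f'] at a1
    have a2 : (n / 2) * (T e' f' f' + S * (m / 2)) = 0 := by linarith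
    have := (mul_eq_zero.1 a2).resolve_left (by positivity)
    linarith
  have v222 : T f' f' f' = -(S * (n / 2)) := by
    have a1 := te2 f'
    rw [ff, mul_one] at a1
    conv_lhs at a1 => rw [edec]
    rw [map_add, map_smul, map_smul, LinearMap.add_apply, LinearMap.add_apply,
      LinearMap.smul_apply, LinearMap.smul_apply, LinearMap.smul_apply, LinearMap.smul_apply,
      smul_eq_mul, smul_eq_mul, v122] at a1
    have a2 : (n / 2) * (T f' f' f' + S * (n / 2)) = 0 := by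
      have a3 : (n / 2) * (S * (n / 2)) = S - (m / 2) * (S * (m / 2)) := by
        have : n ^ 2 = 4 - m ^ 2 := by linarith
        nlinarith
      rw [mul_add, a3]
      linarith
    have := (mul_eq_zero.1 a2).resolve_left (by positivity)
    linarith
  have key : ∀ x y : ℝ, T (x • e' + y • f') (x • e' + y • f') (x • e' + y • f')
      = S * ((m / 2) * (x ^ 3 - 3 * x * y ^ 2) + (n / 2) * (3 * x ^ 2 * y - y ^ 3)) := by
    intro x y
    have b1 : T e' f' e' = T e' e' f' := s2 _ _ _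
    have b2 : T f' e' e' = T e' e' f' := by rw [s1, s2]
    have b3 : T f' e' f' = T e' f' f' := s1 _ _ _
    have b4 : T f' f' e' = T e' f' f' := by rw [s2, s1]
    simp only [map_add, map_smul, LinearMap.add_apply, LinearMap.smul_apply, smul_eq_mul, b1, b2,
      b3, b4, v111, v112, v122, v222]
    ring
  have nrm : ∀ x y : ℝ, ‖x • e' + y • f'‖ ^ 2 = x ^ 2 + y ^ 2 := by
    intro x y
    rw [norm_add_sq_real, norm_smul, norm_smul, ne', nf', inner_smul_left, inner_smul_right, oef]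
    simp
  obtain ⟨x, y, x', y', k1, k2, k3, k4, k5, k6, k7⟩ := ban_cube (P := m / 2) (Q := n / 2)
    (by linarith)
  have fin : m / 2 * (m / 2) + n / 2 * (n / 2) = 1 := by linarith
  refine ⟨x • e' + y • f', x' • e' + y' • f', ?_, ?_, ?_, ?_, ?_⟩
  · have := nrm x y
    rw [k1] at this
    exact (pow_eq_one_iff_of_nonneg (norm_nonneg _) (by norm_num)).1 this
  · have := nrm x' y'
    rw [k2] at this
    exact (pow_eq_one_iff_of_nonneg (norm_nonneg _) (by norm_num)).1 this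
  · rw [key, k3, k4, fin, mul_one]
  · rw [key, k5, k6, fin, mul_one]
  · rintro u ⟨⟨s, hs⟩, ⟨t, ht⟩⟩
    have c1 : x = s * inner ℝ e' u := by
      have := congrArg (fun v => inner ℝ e' v) hs
      simp only [inner_add_right, inner_smul_right, ee, oef, mul_one, mul_zero, add_zero] at this
      exact this
    have c2 : y = s * inner ℝ f' u := by
      have := congrArg (fun v => inner ℝ f' v) hs
      simp only [inner_add_right, inner_smul_right, ff, ofe, mul_one, mul_zero, zero_add] at this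
      exact this
    have c3 : x' = t * inner ℝ e' u := by
      have := congrArg (fun v => inner ℝ e' v) ht
      simp only [inner_add_right, inner_smul_right, ee, oef, mul_one, mul_zero, add_zero] at this
      exact this
    have c4 : y' = t * inner ℝ f' u := by
      have := congrArg (fun v => inner ℝ f' v) ht
      simp only [inner_add_right, inner_smul_right, ff, ofe, mul_one, mul_zero, zero_add] at this
      exact this
    apply k7
    rw [c1, c2, c3, c4]
    ring

theorem ban_pair (T : V →ₗ[ℝ] V →ₗ[ℝ] V →ₗ[ℝ] ℝ) {S : ℝ} (hS : 0 < S)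
    (s2 : ∀ x y z, T x y z = T x z y)
    (hT : ∀ x y z, |T x y z| ≤ S * ‖x‖ * ‖y‖ * ‖z‖) {a b c : V} (ha : ‖a‖ = 1) (hb : ‖b‖ = 1)
    (hc : ‖c‖ = 1) (h : T c a b = S) :
    (b = a ∨ b = -a) ∨ ∃ e f : V, ‖e‖ = 1 ∧ ‖f‖ = 1 ∧ T c e e = S ∧ T (-c) f f = S ∧
      inner ℝ e f = 0 ∧ (∃ k : ℝ, e = k • (a + b)) ∧ (∃ k : ℝ, f = k • (a - b)) := by
  have L : ∀ x y z, ‖x‖ = 1 → ‖y‖ = 1 → ‖z‖ = 1 → T x y z = S → ∀ t, T x y t = S * inner ℝ z t := by
    intro x y z hx hy hz hxyz t
    refine ban_lin (T x y) hS ?_ hz hxyz t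
    intro t
    have := hT x y t
    rw [hx, hy, mul_one, mul_one] at this
    exact this
  by_cases h1 : b = a
  · exact Or.inl (Or.inl h1)
  by_cases h2 : b = -a
  · exact Or.inl (Or.inr h2)
  right
  have ta : ∀ t, T c a t = S * inner ℝ b t := L c a b hc ha hb h
  have tb : ∀ t, T c b t = S * inner ℝ a t := L c b a hc hb ha (by rw [s2, h])
  set m := ‖a + b‖ with hm
  set n := ‖a - b‖ with hn
  have hm0 : 0 < m := by
    rw [hm, norm_pos_iff]
    intro h0
    apply h2
    rw [eq_neg_iff_add_eq_zero, add_comm]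
    exact h0
  have hn0 : 0 < n := by
    rw [hn, norm_pos_iff]
    intro h0
    exact h1 (sub_eq_zero.1 h0).symm
  have hms : m ^ 2 = 2 + 2 * inner ℝ a b := by
    rw [hm, norm_add_sq_real, ha, hb]
    ring
  have hns : n ^ 2 = 2 - 2 * inner ℝ a b := by
    rw [hn, norm_sub_sq_real, ha, hb]
    ring
  have iaa : inner ℝ a a = (1 : ℝ) := by rw [real_inner_self_eq_norm_sq, ha, one_pow]
  have ibb : inner ℝ b b = (1 : ℝ) := by rw [real_inner_self_eq_norm_sq, hb, one_pow]
  have iba : inner ℝ b a = inner ℝ a b := real_inner_comm _ _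
  refine ⟨m⁻¹ • (a + b), n⁻¹ • (a - b), ?_, ?_, ?_, ?_, ?_, ⟨m⁻¹, rfl⟩, ⟨n⁻¹, rfl⟩⟩
  · rw [norm_smul, norm_inv, Real.norm_eq_abs, abs_of_pos hm0, ← hm, inv_mul_cancel₀ hm0.ne']
  · rw [norm_smul, norm_inv, Real.norm_eq_abs, abs_of_pos hn0, ← hn, inv_mul_cancel₀ hn0.ne']
  · simp only [map_add, map_smul, LinearMap.add_apply, LinearMap.smul_apply, smul_eq_mul, ta, tb,
      iaa, ibb, iba]
    have : m⁻¹ * (m⁻¹ * (S * inner ℝ a b + S * 1 + (S * 1 + S * inner ℝ a b)))
        = S * (m⁻¹ * (m⁻¹ * (2 + 2 * inner ℝ a b))) := by ring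
    rw [← hms] at this
    have e1 : m⁻¹ * (m⁻¹ * m ^ 2) = 1 := by field_simp
    rw [e1, mul_one] at this
    linarith
  · simp only [map_sub, map_smul, map_neg, LinearMap.sub_apply, LinearMap.smul_apply,
      LinearMap.neg_apply, smul_eq_mul, ta, tb, iaa, ibb, iba]
    have : n⁻¹ * (n⁻¹ * (S * inner ℝ a b - S * 1 - (S * 1 - S * inner ℝ a b)))
        = -(S * (n⁻¹ * (n⁻¹ * (2 - 2 * inner ℝ a b)))) := by ring
    rw [← hns] at this
    have e1 : n⁻¹ * (n⁻¹ * n ^ 2) = 1 := by field_simp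
    rw [e1, mul_one] at this
    linarith
  · rw [inner_smul_left, inner_smul_right, inner_add_left, inner_sub_right, inner_sub_right, iaa,
      ibb, iba]
    simp

end

theorem st_BAN : ST_BAN := by
  intro V _ _ _ T C s1 s2 hC
  classical
  -- part 1
  have part1 : ∀ x y z, |T x y z| ≤ C * ‖x‖ * ‖y‖ * ‖z‖ := by
    set b := stdOrthonormalBasis ℝ V with hb
    have hexp : ∀ x y z, T x y z = ∑ i, ∑ j, ∑ k,
        inner ℝ (b i) x * (inner ℝ (b j) y * (inner ℝ (b k) z * T (b i) (b j) (b k))) := by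
      intro x y z
      have e1 : ∀ f : V →ₗ[ℝ] ℝ, ∀ z, f z = ∑ k, inner ℝ (b k) z * f (b k) := by
        intro f z
        conv_lhs => rw [← b.sum_repr' z]
        rw [map_sum]
        simp
      have e2 : ∀ x y, T x y = ∑ j, inner ℝ (b j) y • T x (b j) := by
        intro x y
        conv_lhs => rw [← b.sum_repr' y]
        rw [map_sum]
        simp
      have e3 : ∀ x, T x = ∑ i, inner ℝ (b i) x • T (b i) := by
        intro x
        conv_lhs => rw [← b.sum_repr' x]
        rw [map_sum]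
        simp
      rw [e3 x, LinearMap.sum_apply, LinearMap.sum_apply]
      refine Finset.sum_congr rfl fun i _ => ?_
      rw [LinearMap.smul_apply, LinearMap.smul_apply, smul_eq_mul, e2 (b i) y,
        LinearMap.sum_apply, Finset.mul_sum]
      refine Finset.sum_congr rfl fun j _ => ?_
      rw [LinearMap.smul_apply, smul_eq_mul, e1 (T (b i) (b j)) z, Finset.mul_sum, Finset.mul_sum]
    have hcont : Continuous (fun p : V × V × V => |T p.1 p.2.1 p.2.2|) := by
      have : (fun p : V × V × V => |T p.1 p.2.1 p.2.2|) = fun p : V × V × V =>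
          |∑ i, ∑ j, ∑ k, inner ℝ (b i) p.1 * (inner ℝ (b j) p.2.1 *
            (inner ℝ (b k) p.2.2 * T (b i) (b j) (b k)))| := by
        funext p
        rw [hexp]
      rw [this]
      fun_prop
    obtain ⟨⟨a0, b0, c0⟩, hmem, hmax⟩ := ((isCompact_closedBall (0 : V) 1).prod
      ((isCompact_closedBall (0 : V) 1).prod (isCompact_closedBall (0 : V) 1))).exists_isMaxOn
      ⟨(0, 0, 0), by simp⟩ hcont.continuousOn
    have ha0 : ‖a0‖ ≤ 1 := by simpa using hmem.1
    have hb0 : ‖b0‖ ≤ 1 := by simpa using hmem.2.1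
    have hc0 : ‖c0‖ ≤ 1 := by simpa using hmem.2.2
    obtain ⟨S, hSdef⟩ : ∃ S, S = |T a0 b0 c0| := ⟨_, rfl⟩
    have hS0 : 0 ≤ S := by rw [hSdef]; exact abs_nonneg _
    have hunit : ∀ x y z, ‖x‖ = 1 → ‖y‖ = 1 → ‖z‖ = 1 → |T x y z| ≤ S := by
      intro x y z hx hy hz
      rw [hSdef]
      exact hmax (show (x, y, z) ∈ _ from ⟨by simp [hx], by simp [hy], by simp [hz]⟩)
    have hT : ∀ x y z, |T x y z| ≤ S * ‖x‖ * ‖y‖ * ‖z‖ := by
      intro x y z
      by_cases hx : x = 0
      · simp [hx]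
      by_cases hy : y = 0
      · simp [hy]
      by_cases hz : z = 0
      · simp [hz]
      have nx : 0 < ‖x‖ := norm_pos_iff.2 hx
      have ny : 0 < ‖y‖ := norm_pos_iff.2 hy
      have nz : 0 < ‖z‖ := norm_pos_iff.2 hz
      have h1 := hunit (‖x‖⁻¹ • x) (‖y‖⁻¹ • y) (‖z‖⁻¹ • z)
        (by rw [norm_smul, norm_inv, norm_norm, inv_mul_cancel₀ nx.ne'])
        (by rw [norm_smul, norm_inv, norm_norm, inv_mul_cancel₀ ny.ne'])
        (by rw [norm_smul, norm_inv, norm_norm, inv_mul_cancel₀ nz.ne'])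
      simp only [map_smul, LinearMap.smul_apply, smul_eq_mul, abs_mul, abs_inv, abs_norm] at h1
      have h2 : |T x y z| = ‖x‖ * ‖y‖ * ‖z‖ * (‖z‖⁻¹ * (‖y‖⁻¹ * (‖x‖⁻¹ * |T x y z|))) := by
        field_simp
      rw [h2]
      have h3 := mul_le_mul_of_nonneg_left h1 (by positivity : 0 ≤ ‖x‖ * ‖y‖ * ‖z‖)
      linarith
    rcases hS0.eq_or_lt with hS | hS
    · intro x y z
      have h1 := hT x y z
      rw [← hS] at h1
      by_cases hx : x = 0
      · simp [hx]
      have nx : 0 < ‖x‖ := norm_pos_iff.2 hx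
      have hC0 : 0 ≤ C := by
        by_contra hcon
        push Not at hcon
        have h2 := hC x
        have h3 : C * ‖x‖ ^ 3 < 0 := mul_neg_of_neg_of_pos hcon (by positivity)
        linarith [abs_nonneg (T x x x)]
      have h4 : 0 ≤ C * ‖x‖ * ‖y‖ * ‖z‖ := by positivity
      linarith
    · have hSC : S ≤ C := by
        have h1 := hT a0 b0 c0
        rw [← hSdef] at h1
        have hp : 1 ≤ ‖a0‖ * ‖b0‖ * ‖c0‖ := by
          by_contra hcon
          push Not at hcon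
          have : S * (‖a0‖ * ‖b0‖ * ‖c0‖) < S * 1 := mul_lt_mul_of_pos_left hcon hS
          linarith
        have na := norm_nonneg a0
        have nb := norm_nonneg b0
        have nc := norm_nonneg c0
        have q1 : ‖a0‖ * ‖b0‖ ≤ 1 := by nlinarith
        have q2 : ‖c0‖ = 1 := by
          apply le_antisymm hc0
          calc 1 ≤ ‖a0‖ * ‖b0‖ * ‖c0‖ := hp
            _ ≤ 1 * ‖c0‖ := mul_le_mul_of_nonneg_right q1 nc
            _ = ‖c0‖ := one_mul _
        rw [q2, mul_one] at hp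
        have q3 : ‖b0‖ = 1 := by
          apply le_antisymm hb0
          calc 1 ≤ ‖a0‖ * ‖b0‖ := hp
            _ ≤ 1 * ‖b0‖ := mul_le_mul_of_nonneg_right ha0 nb
            _ = ‖b0‖ := one_mul _
        rw [q3, mul_one] at hp
        have q4 : ‖a0‖ = 1 := le_antisymm ha0 hp
        -- a unit vector in the first slot with the right sign
        obtain ⟨a, na1, hab⟩ : ∃ a, ‖a‖ = 1 ∧ T a b0 c0 = S := by
          rcases abs_choice (T a0 b0 c0) with h | h
          · exact ⟨a0, q4, by rw [hSdef, h]⟩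
          · refine ⟨-a0, by rw [norm_neg, q4], ?_⟩
            rw [map_neg, LinearMap.neg_apply, LinearMap.neg_apply, hSdef, h]
        obtain ⟨c, e, nc1, ne1, hce⟩ : ∃ c e, ‖c‖ = 1 ∧ ‖e‖ = 1 ∧ T c e e = S := by
          rcases ban_pair T hS s2 hT q3 q2 na1 hab with (h | h) | ⟨e, f, he, hf, h1, -⟩
          · exact ⟨a, b0, na1, q3, by rw [h] at hab; exact hab⟩
          · refine ⟨-a, b0, by rw [norm_neg, na1], q3, ?_⟩
            rw [h, map_neg] at hab
            rw [map_neg, LinearMap.neg_apply, LinearMap.neg_apply, hab]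
          · exact ⟨a, e, na1, he, h1⟩
        have fin : ∀ v, ‖v‖ = 1 → |T v v v| = S → S ≤ C := by
          intro v hv hvS
          have := hC v
          rw [hv, one_pow, mul_one, hvS] at this
          exact this
        by_cases h1 : c = e
        · rw [h1] at hce
          exact fin e ne1 (by rw [hce, abs_of_pos hS])
        by_cases h2 : c = -e
        · rw [h2, map_neg, LinearMap.neg_apply, LinearMap.neg_apply] at hce
          exact fin e ne1 (by rw [← abs_neg, hce, abs_of_pos hS])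
        obtain ⟨v, -, hv, -, hvS, -⟩ := ban_two T hS s1 s2 hT nc1 ne1 hce h1 h2
        exact fin v hv (by rw [hvS, abs_of_pos hS])
      intro x y z
      refine (hT x y z).trans ?_
      gcongr
  refine ⟨part1, ?_⟩
  intro u hu hC0 x y z hxyz hx hy hz
  have L : ∀ c e, ‖c‖ = 1 → ‖e‖ = 1 → T c e e = C →
      (∃ s : ℝ, c = s • u) ∧ (∃ s : ℝ, e = s • u) := by
    intro c e hc he h
    by_cases h1 : c = e
    · rw [h1] at h
      have := hu e (by rw [h, he, one_pow, mul_one, abs_of_pos hC0])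
      rw [h1]
      exact ⟨this, this⟩
    by_cases h2 : c = -e
    · rw [h2, map_neg, LinearMap.neg_apply, LinearMap.neg_apply] at h
      obtain ⟨s, hs⟩ := hu e (by rw [← abs_neg, h, he, one_pow, mul_one, abs_of_pos hC0])
      refine ⟨⟨-s, ?_⟩, ⟨s, hs⟩⟩
      rw [h2, hs, neg_smul]
    obtain ⟨v, w, hv, hw, hvC, hwC, hno⟩ := ban_two T hC0 s1 s2 part1 hc he h h1 h2
    exact absurd ⟨hu v (by rw [hvC, hv, one_pow, mul_one, abs_of_pos hC0]),
      hu w (by rw [hwC, hw, one_pow, mul_one, abs_of_pos hC0])⟩ (hno u)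
  have nx : 0 < ‖x‖ := norm_pos_iff.2 hx
  have ny : 0 < ‖y‖ := norm_pos_iff.2 hy
  have nz : 0 < ‖z‖ := norm_pos_iff.2 hz
  have u1 : ∀ v : V, 0 < ‖v‖ → ‖(‖v‖⁻¹ • v)‖ = 1 := by
    intro v hv
    rw [norm_smul, norm_inv, norm_norm, inv_mul_cancel₀ hv.ne']
  have hval : |T (‖x‖⁻¹ • x) (‖y‖⁻¹ • y) (‖z‖⁻¹ • z)| = C := by
    simp only [map_smul, LinearMap.smul_apply, smul_eq_mul, abs_mul, abs_inv, abs_norm, hxyz]
    field_simp
  have back : ∀ v : V, 0 < ‖v‖ → (∃ s : ℝ, ‖v‖⁻¹ • v = s • u) → ∃ s : ℝ, v = s • u := by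
    rintro v hv ⟨s, hs⟩
    refine ⟨‖v‖ * s, ?_⟩
    rw [← smul_smul, ← hs, smul_smul, mul_inv_cancel₀ hv.ne', one_smul]
  have main : ∀ a b c : V, ‖a‖ = 1 → ‖b‖ = 1 → ‖c‖ = 1 → T a b c = C →
      (∃ s : ℝ, a = s • u) ∧ (∃ s : ℝ, b = s • u) ∧ (∃ s : ℝ, c = s • u) := by
    intro a b c ha hb hc h
    rcases ban_pair T hC0 s2 part1 hb hc ha h with (h1 | h1) | ⟨e, f, he, hf, h1, h2, h3, -, -⟩
    · rw [h1] at h
      obtain ⟨k1, k2⟩ := L a b ha hb h
      rw [h1]
      exact ⟨k1, k2, k2⟩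
    · rw [h1, map_neg] at h
      have h' : T (-a) b b = C := by
        rw [map_neg, LinearMap.neg_apply, LinearMap.neg_apply, h]
      obtain ⟨⟨s, hs⟩, ⟨t, ht⟩⟩ := L (-a) b (by rw [norm_neg, ha]) hb h'
      refine ⟨⟨-s, ?_⟩, ⟨t, ht⟩, ⟨-t, ?_⟩⟩
      · rw [neg_smul, ← hs, neg_neg]
      · rw [h1, neg_smul, ← ht]
    · exfalso
      obtain ⟨-, ⟨s, hs⟩⟩ := L a e ha he h1
      obtain ⟨-, ⟨t, ht⟩⟩ := L (-a) f (by rw [norm_neg, ha]) hf h2
      have hs0 : s ≠ 0 := by
        rintro rfl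
        rw [hs, zero_smul, norm_zero] at he
        exact zero_ne_one he
      have ht0 : t ≠ 0 := by
        rintro rfl
        rw [ht, zero_smul, norm_zero] at hf
        exact zero_ne_one hf
      have hu0 : u ≠ 0 := by
        rintro rfl
        rw [hs, smul_zero, norm_zero] at he
        exact zero_ne_one he
      rw [hs, ht, inner_smul_left, inner_smul_right, real_inner_self_eq_norm_sq] at h3
      have hn : 0 < ‖u‖ := norm_pos_iff.2 hu0
      simp only [conj_trivial] at h3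
      rcases mul_eq_zero.1 h3 with h4 | h4
      · exact hs0 h4
      · rcases mul_eq_zero.1 h4 with h5 | h5
        · exact ht0 h5
        · exact (pow_pos hn 2).ne' h5
  rcases abs_choice (T (‖x‖⁻¹ • x) (‖y‖⁻¹ • y) (‖z‖⁻¹ • z)) with h | h
  · rw [hval] at h
    obtain ⟨k1, k2, k3⟩ := main _ _ _ (u1 x nx) (u1 y ny) (u1 z nz) h.symm
    exact ⟨back x nx k1, back y ny k2, back z nz k3⟩
  · rw [hval] at h
    obtain ⟨⟨s, hs⟩, k2, k3⟩ := main (-(‖x‖⁻¹ • x)) _ _ (by rw [norm_neg, u1 x nx]) (u1 y ny)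
      (u1 z nz) (by rw [map_neg, LinearMap.neg_apply, LinearMap.neg_apply, ← h])
    refine ⟨back x nx ⟨-s, ?_⟩, back y ny k2, back z nz k3⟩
    rw [neg_smul, ← hs, neg_neg]

end Pool.Agent.Helper53.T4
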